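import Mathlib
import Pool.Agent.Y957.MC.Spec

/-!
# The oscillatory integral (OSC)
-/

set_option autoImplicit false

namespace Pool.Agent.Y484.MC

open MeasureTheory Set

/-- integration by parts, away from the zeros of the derivative of the phase -/
theorem parts (W φ : ℝ → ℝ) (A B c d lam : ℝ) (hcd : c ≤ d)
    (hφ : ∀ r ∈ Icc c d, HasDerivAt φ ((A * r + B) * W r) r) (hW : ContinuousOn W (Icc c d))
    (hlam : 0 < lam) (hl : ∀ r ∈ Icc c d, lam ≤ |A * r + B|) :
    ‖∫ r in c..d, (W r : ℂ) * Complex.exp ((φ r : ℂ) * Complex.I)‖ ≤ 4 / lam := by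
  have hne : ∀ r ∈ Icc c d, A * r + B ≠ 0 := by
    intro r hr h
    have := hl r hr
    rw [h, abs_zero] at this
    linarith
  have hφc : ContinuousOn φ (Icc c d) := fun r hr => (hφ r hr).continuousAt.continuousWithinAt
  have hexp : ContinuousOn (fun r => Complex.exp ((φ r : ℂ) * Complex.I)) (Icc c d) := by
    apply Complex.continuous_exp.comp_continuousOn
    exact (Complex.continuous_ofReal.comp_continuousOn hφc).mul continuousOn_const
  have hlc : ContinuousOn (fun r : ℝ => ((A * r + B : ℝ) : ℂ)) (Icc c d) := by fun_prop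
  have hnorm : ∀ r : ℝ, ‖Complex.exp ((φ r : ℂ) * Complex.I)‖ = 1 := fun r =>
    Complex.norm_exp_ofReal_mul_I _
  -- the real integral
  have hreal : |∫ r in c..d, A / (A * r + B) ^ 2| ≤ 2 / lam := by
    have h1 : ∫ r in c..d, A / (A * r + B) ^ 2 = -(A * d + B)⁻¹ - -(A * c + B)⁻¹ := by
      apply intervalIntegral.integral_eq_sub_of_hasDerivAt (f := fun r => -(A * r + B)⁻¹)
      · intro r hr
        rw [uIcc_of_le hcd] at hr
        have h2 : HasDerivAt (fun r : ℝ => A * r + B) A r := by
          simpa using ((hasDerivAt_id r).const_mul A).add_const B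
        have h3 : HasDerivAt (fun r : ℝ => -(A * r + B)⁻¹) (-(-A / (A * r + B) ^ 2)) r :=
          (h2.inv (hne r hr)).neg
        exact h3.congr_deriv (by ring)
      · apply ContinuousOn.intervalIntegrable
        rw [uIcc_of_le hcd]
        exact continuousOn_const.div (by fun_prop) fun r hr => pow_ne_zero 2 (hne r hr)
    rw [h1]
    have hb : ∀ r ∈ Icc c d, |(A * r + B)⁻¹| ≤ 1 / lam := by
      intro r hr
      rw [abs_inv, ← one_div]
      exact one_div_le_one_div_of_le hlam (hl r hr)
    have h2 := hb c (left_mem_Icc.2 hcd)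
    have h3 := hb d (right_mem_Icc.2 hcd)
    calc |-(A * d + B)⁻¹ - -(A * c + B)⁻¹| ≤ |-(A * d + B)⁻¹| + |-(A * c + B)⁻¹| := abs_sub _ _
      _ = |(A * d + B)⁻¹| + |(A * c + B)⁻¹| := by rw [abs_neg, abs_neg]
      _ ≤ 1 / lam + 1 / lam := add_le_add h3 h2
      _ = 2 / lam := by ring
  -- the antiderivative
  set G : ℝ → ℂ := fun r => Complex.exp ((φ r : ℂ) * Complex.I) /
    (Complex.I * ((A * r + B : ℝ) : ℂ)) with hG
  have hden : ∀ r ∈ Icc c d, Complex.I * ((A * r + B : ℝ) : ℂ) ≠ 0 := fun r hr =>
    mul_ne_zero Complex.I_ne_zero (Complex.ofReal_ne_zero.2 (hne r hr))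
  have hGd : ∀ r ∈ Icc c d, HasDerivAt G ((W r : ℂ) * Complex.exp ((φ r : ℂ) * Complex.I) -
      Complex.exp ((φ r : ℂ) * Complex.I) * ((A : ℂ) / (Complex.I * ((A * r + B : ℝ) : ℂ) ^ 2))) r := by
    intro r hr
    have h1 : HasDerivAt (fun r : ℝ => (φ r : ℂ) * Complex.I)
        ((((A * r + B) * W r : ℝ) : ℂ) * Complex.I) r := (hφ r hr).ofReal_comp.mul_const _
    have h2 := h1.cexp
    have h3 : HasDerivAt (fun r : ℝ => Complex.I * ((A * r + B : ℝ) : ℂ)) (Complex.I * (A : ℂ)) r := by
      have h4 : HasDerivAt (fun r : ℝ => A * r + B) A r := by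
        simpa using ((hasDerivAt_id r).const_mul A).add_const B
      exact h4.ofReal_comp.const_mul _
    have h5 : HasDerivAt G _ r := h2.div h3 (hden r hr)
    refine h5.congr_deriv ?_
    have h6 : ((A * r + B : ℝ) : ℂ) ≠ 0 := Complex.ofReal_ne_zero.2 (hne r hr)
    have h7 := Complex.I_ne_zero
    rw [Complex.ofReal_mul]
    generalize ((A * r + B : ℝ) : ℂ) = l at h6 ⊢
    field_simp
  have hc1 : ContinuousOn (fun r => (W r : ℂ) * Complex.exp ((φ r : ℂ) * Complex.I)) (Icc c d) :=
    (Complex.continuous_ofReal.comp_continuousOn hW).mul hexp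
  have hc2 : ContinuousOn (fun r => Complex.exp ((φ r : ℂ) * Complex.I) *
      ((A : ℂ) / (Complex.I * ((A * r + B : ℝ) : ℂ) ^ 2))) (Icc c d) := by
    refine hexp.mul (continuousOn_const.div (continuousOn_const.mul (hlc.pow 2)) fun r hr => ?_)
    exact mul_ne_zero Complex.I_ne_zero (pow_ne_zero 2 (Complex.ofReal_ne_zero.2 (hne r hr)))
  have hi1 : IntervalIntegrable (fun r => (W r : ℂ) * Complex.exp ((φ r : ℂ) * Complex.I))
      volume c d := by
    apply ContinuousOn.intervalIntegrable
    rwa [uIcc_of_le hcd]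
  have hi2 : IntervalIntegrable (fun r => Complex.exp ((φ r : ℂ) * Complex.I) *
      ((A : ℂ) / (Complex.I * ((A * r + B : ℝ) : ℂ) ^ 2))) volume c d := by
    apply ContinuousOn.intervalIntegrable
    rwa [uIcc_of_le hcd]
  have hint : ∫ r in c..d, ((W r : ℂ) * Complex.exp ((φ r : ℂ) * Complex.I) -
      Complex.exp ((φ r : ℂ) * Complex.I) * ((A : ℂ) / (Complex.I * ((A * r + B : ℝ) : ℂ) ^ 2))) =
      G d - G c := by
    apply intervalIntegral.integral_eq_sub_of_hasDerivAt
    · intro r hr
      rw [uIcc_of_le hcd] at hr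
      exact hGd r hr
    · exact hi1.sub hi2
  rw [intervalIntegral.integral_sub hi1 hi2] at hint
  have hGn : ∀ r ∈ Icc c d, ‖G r‖ ≤ 1 / lam := by
    intro r hr
    rw [hG]
    simp only
    rw [norm_div, hnorm, norm_mul, Complex.norm_I, one_mul, Complex.norm_real, Real.norm_eq_abs]
    exact one_div_le_one_div_of_le hlam (hl r hr)
  have h2n : ‖∫ r in c..d, Complex.exp ((φ r : ℂ) * Complex.I) *
      ((A : ℂ) / (Complex.I * ((A * r + B : ℝ) : ℂ) ^ 2))‖ ≤ 2 / lam := by
    refine le_trans (intervalIntegral.norm_integral_le_integral_norm hcd) ?_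
    have h3 : ∀ r, ‖Complex.exp ((φ r : ℂ) * Complex.I) *
        ((A : ℂ) / (Complex.I * ((A * r + B : ℝ) : ℂ) ^ 2))‖ = |A| * (1 / (A * r + B) ^ 2) := by
      intro r
      rw [norm_mul, hnorm, one_mul, norm_div, norm_mul, Complex.norm_I, one_mul, norm_pow,
        Complex.norm_real, Complex.norm_real, Real.norm_eq_abs, Real.norm_eq_abs, sq_abs]
      ring
    simp only [h3]
    rw [intervalIntegral.integral_const_mul]
    have h4 : 0 ≤ ∫ r in c..d, 1 / (A * r + B) ^ 2 :=
      intervalIntegral.integral_nonneg hcd fun r _ => by positivity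
    have h5 : |∫ r in c..d, A / (A * r + B) ^ 2| = |A| * ∫ r in c..d, 1 / (A * r + B) ^ 2 := by
      have h6 : ∀ r, A / (A * r + B) ^ 2 = A * (1 / (A * r + B) ^ 2) := fun r => by ring
      simp only [h6]
      rw [intervalIntegral.integral_const_mul, abs_mul, abs_of_nonneg h4]
    rw [← h5]
    exact hreal
  have hfin : ∫ r in c..d, (W r : ℂ) * Complex.exp ((φ r : ℂ) * Complex.I) =
      G d - G c + ∫ r in c..d, Complex.exp ((φ r : ℂ) * Complex.I) *
      ((A : ℂ) / (Complex.I * ((A * r + B : ℝ) : ℂ) ^ 2)) := by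
    rw [← hint]
    ring
  rw [hfin]
  calc _ ≤ ‖G d - G c‖ + 2 / lam := (norm_add_le _ _).trans (add_le_add le_rfl h2n)
    _ ≤ (1 / lam + 1 / lam) + 2 / lam := add_le_add ((norm_sub_le _ _).trans
        (add_le_add (hGn d (right_mem_Icc.2 hcd)) (hGn c (left_mem_Icc.2 hcd)))) le_rfl
    _ = 4 / lam := by ring

/-- **OSC** -/
theorem osc : Pool.Agent.Y957.MC.S_OSC := by
  intro b hb
  refine ⟨8 + 8 * b, by linarith, ?_⟩
  intro M T h t t' α β hM hT ht ht' hh hα hαβ hβ hα' hβ'
  set W : ℝ → ℝ := fun r => 1 / (r * (r + h)) with hW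
  set φ : ℝ → ℝ := fun r => -t * Real.log r + t' * Real.log (r + h) with hφ
  have hb0 : 0 < b := by linarith
  have hh0 : 0 < |h| := abs_pos.2 hh
  have hpos : ∀ r ∈ Icc α β, M ≤ r ∧ M ≤ r + h := by
    intro r hr
    exact ⟨hα.trans hr.1, hα'.trans (by linarith [hr.1])⟩
  have hφd : ∀ r ∈ Icc α β, HasDerivAt φ (((t' - t) * r + -(t * h)) * W r) r := by
    intro r hr
    obtain ⟨h1, h2⟩ := hpos r hr
    have h3 : r ≠ 0 := by linarith
    have h4 : r + h ≠ 0 := by linarith
    have h5 := (Real.hasDerivAt_log h3).const_mul (-t)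
    have h6 : HasDerivAt (fun r : ℝ => r + h) 1 r := (hasDerivAt_id r).add_const h
    have h7 := (h6.log h4).const_mul t'
    have h8 : HasDerivAt φ (-t * r⁻¹ + t' * (1 / (r + h))) r := h5.add h7
    refine h8.congr_deriv ?_
    rw [hW]
    field_simp
    ring
  have hWc : ContinuousOn W (Icc α β) := by
    apply continuousOn_const.div (by fun_prop)
    intro r hr
    obtain ⟨h1, h2⟩ := hpos r hr
    exact mul_ne_zero (by linarith) (by linarith)
  have hφc : ContinuousOn φ (Icc α β) := fun r hr => (hφd r hr).continuousAt.continuousWithinAt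
  have hcont : ContinuousOn (fun r => (W r : ℂ) * Complex.exp ((φ r : ℂ) * Complex.I))
      (Icc α β) := by
    refine (Complex.continuous_ofReal.comp_continuousOn hWc).mul ?_
    apply Complex.continuous_exp.comp_continuousOn
    exact (Complex.continuous_ofReal.comp_continuousOn hφc).mul continuousOn_const
  have hint : ∀ c d, α ≤ c → c ≤ d → d ≤ β → IntervalIntegrable
      (fun r => (W r : ℂ) * Complex.exp ((φ r : ℂ) * Complex.I)) volume c d := by
    intro c d h1 h2 h3
    apply ContinuousOn.intervalIntegrable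
    rw [uIcc_of_le h2]
    exact hcont.mono (Icc_subset_Icc h1 h3)
  -- the trivial bound
  have htriv : ∀ c d, α ≤ c → c ≤ d → d ≤ β →
      ‖∫ r in c..d, (W r : ℂ) * Complex.exp ((φ r : ℂ) * Complex.I)‖ ≤ 1 / M ^ 2 * (d - c) := by
    intro c d h1 h2 h3
    have h4 := intervalIntegral.norm_integral_le_of_norm_le_const (a := c) (b := d)
      (f := fun r => (W r : ℂ) * Complex.exp ((φ r : ℂ) * Complex.I)) (C := 1 / M ^ 2) (by
        intro r hr
        rw [uIoc_of_le h2] at hr
        obtain ⟨h5, h6⟩ := hpos r ⟨h1.trans hr.1.le, hr.2.trans h3⟩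
        rw [norm_mul, Complex.norm_exp_ofReal_mul_I, mul_one, Complex.norm_real,
          Real.norm_eq_abs]
        rw [hW]
        simp only
        have h7 : M ^ 2 ≤ r * (r + h) := by nlinarith
        have h8 : 0 < M ^ 2 := by positivity
        rw [abs_of_pos (one_div_pos.2 (h8.trans_le h7))]
        exact one_div_le_one_div_of_le h8 h7)
    rwa [abs_of_nonneg (by linarith)] at h4
  show ‖∫ r in α..β, (W r : ℂ) * Complex.exp ((φ r : ℂ) * Complex.I)‖ ≤ _
  have hTh : 0 < M * T * |h| := by positivity
  have hthT : T * |h| ≤ |t * h| := by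
    rw [abs_mul]
    exact mul_le_mul_of_nonneg_right ht hh0.le
  by_cases hcase : |t' - t| * (b * M) ≤ |t * h| / 2
  · -- Case A
    have h1 := parts W φ (t' - t) (-(t * h)) α β (T * |h| / 2) hαβ hφd hWc (by positivity) (by
      intro r hr
      have h2 : |(t' - t) * r| ≤ |t * h| / 2 := by
        rw [abs_mul]
        have h3 : 0 ≤ r := by linarith [(hpos r hr).1]
        rw [abs_of_nonneg h3]
        refine le_trans (mul_le_mul_of_nonneg_left (hr.2.trans hβ) (abs_nonneg _)) hcase
      have h3 : |t * h| - |(t' - t) * r| ≤ |(t' - t) * r + -(t * h)| := by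
        have := abs_sub_abs_le_abs_sub (t * h) ((t' - t) * r)
        rw [abs_sub_comm] at this
        rwa [← sub_eq_add_neg]
      linarith)
    have h2 := htriv α β le_rfl hαβ le_rfl
    have h3 : 1 / M ^ 2 * (β - α) ≤ b / M := by
      have : β - α ≤ b * M := by linarith
      calc 1 / M ^ 2 * (β - α) ≤ 1 / M ^ 2 * (b * M) :=
            mul_le_mul_of_nonneg_left this (by positivity)
        _ = b / M := by field_simp
    set I := ‖∫ r in α..β, (W r : ℂ) * Complex.exp ((φ r : ℂ) * Complex.I)‖ with hI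
    have hI0 : 0 ≤ I := norm_nonneg _
    have h4 : I ^ 2 ≤ 8 * b / (M * T * |h|) := by
      calc I ^ 2 = I * I := sq I
        _ ≤ (4 / (T * |h| / 2)) * (b / M) := mul_le_mul h1 (h2.trans h3) hI0 (by positivity)
        _ = 8 * b / (M * T * |h|) := by field_simp; ring
    have h5 : 8 * b / (M * T * |h|) ≤ ((8 + 8 * b) / Real.sqrt (M * T * |h|)) ^ 2 := by
      rw [div_pow, Real.sq_sqrt hTh.le]
      apply div_le_div_of_nonneg_right _ hTh.le
      nlinarith
    have h6 : 0 ≤ (8 + 8 * b) / Real.sqrt (M * T * |h|) :=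
      div_nonneg (by linarith) (Real.sqrt_nonneg _)
    exact (pow_le_pow_iff_left₀ hI0 h6 two_ne_zero).1 (h4.trans h5)
  · -- Case B
    push Not at hcase
    set lam := Real.sqrt (M * T * |h|) with hlam
    have hlam0 : 0 < lam := Real.sqrt_pos.2 hTh
    have hlam2 : lam ^ 2 = M * T * |h| := Real.sq_sqrt hTh.le
    set A := t' - t with hA
    have hA0 : 0 < |A| := by
      by_contra hcon
      have : |A| = 0 := le_antisymm (not_lt.1 hcon) (abs_nonneg _)
      rw [this, zero_mul] at hcase
      linarith [abs_nonneg (t * h)]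
    have hAne : A ≠ 0 := abs_pos.1 hA0
    set r0 := t * h / A with hr0
    set ρ := lam / |A| with hρ
    have hρ0 : 0 < ρ := div_pos hlam0 hA0
    have hl : ∀ r, |A * r + -(t * h)| = |A| * |r - r0| := by
      intro r
      rw [← abs_mul]
      congr 1
      rw [hr0]
      field_simp
      ring
    set u := max α (min (r0 - ρ) β) with hu
    set v := max α (min (r0 + ρ) β) with hv
    have hu1 : α ≤ u := le_max_left _ _
    have huv : u ≤ v := max_le_max le_rfl (min_le_min (by linarith) le_rfl)
    have hvβ : v ≤ β := max_le hαβ (min_le_right _ _)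
    have huβ : u ≤ β := huv.trans hvβ
    have hvα : α ≤ v := hu1.trans huv
    have hlen : v - u ≤ 2 * ρ := by
      rw [hu, hv]
      rcases le_total (r0 + ρ) β with h1 | h1
      · rw [min_eq_left h1, min_eq_left (by linarith)]
        rcases le_total α (r0 + ρ) with h2 | h2
        · rw [max_eq_right h2]
          have := le_max_right α (r0 - ρ)
          linarith
        · rw [max_eq_left h2, max_eq_left (by linarith)]
          linarith
      · rw [min_eq_right h1, max_eq_right hαβ]
        rcases le_total (r0 - ρ) β with h2 | h2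
        · rw [min_eq_left h2]
          have := le_max_right α (r0 - ρ)
          linarith
        · rw [min_eq_right h2, max_eq_right hαβ]
          linarith
    -- the left part
    have hleft : ‖∫ r in α..u, (W r : ℂ) * Complex.exp ((φ r : ℂ) * Complex.I)‖ ≤ 4 / lam := by
      rcases le_total (r0 - ρ) α with h1 | h1
      · have : u = α := by
          rw [hu]
          exact max_eq_left ((min_le_left _ _).trans h1)
        rw [this, intervalIntegral.integral_same, norm_zero]
        positivity
      · have h2 : u ≤ r0 - ρ := by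
          rw [hu]
          exact max_le h1 (min_le_left _ _)
        apply parts W φ A (-(t * h)) α u lam hu1 (fun r hr => hφd r ⟨hr.1, hr.2.trans huβ⟩)
          (hWc.mono (Icc_subset_Icc le_rfl huβ)) hlam0
        intro r hr
        rw [hl]
        have h3 : ρ ≤ |r - r0| := by
          rw [abs_sub_comm]
          refine le_trans ?_ (le_abs_self _)
          linarith [hr.2]
        calc lam = |A| * ρ := by rw [hρ]; field_simp
          _ ≤ |A| * |r - r0| := mul_le_mul_of_nonneg_left h3 hA0.le
    -- the right part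
    have hright : ‖∫ r in v..β, (W r : ℂ) * Complex.exp ((φ r : ℂ) * Complex.I)‖ ≤ 4 / lam := by
      rcases le_total β (r0 + ρ) with h1 | h1
      · have : v = β := by
          rw [hv, min_eq_right h1]
          exact max_eq_right hαβ
        rw [this, intervalIntegral.integral_same, norm_zero]
        positivity
      · have h2 : r0 + ρ ≤ v := by
          rw [hv, min_eq_left h1]
          exact le_max_right _ _
        apply parts W φ A (-(t * h)) v β lam hvβ (fun r hr => hφd r ⟨hvα.trans hr.1, hr.2⟩)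
          (hWc.mono (Icc_subset_Icc hvα le_rfl)) hlam0
        intro r hr
        rw [hl]
        have h3 : ρ ≤ |r - r0| := by
          refine le_trans ?_ (le_abs_self _)
          linarith [hr.1]
        calc lam = |A| * ρ := by rw [hρ]; field_simp
          _ ≤ |A| * |r - r0| := mul_le_mul_of_nonneg_left h3 hA0.le
    -- the middle part
    have hmid : ‖∫ r in u..v, (W r : ℂ) * Complex.exp ((φ r : ℂ) * Complex.I)‖ ≤
        4 * b / lam := by
      refine (htriv u v hu1 huv hvβ).trans ?_
      have h1 : 1 / |A| ≤ 2 * (b * M) / (T * |h|) := by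
        rw [div_le_div_iff₀ hA0 (by positivity)]
        linarith
      have h2 : ρ ≤ lam * (2 * (b * M) / (T * |h|)) := by
        rw [hρ, div_eq_mul_one_div]
        exact mul_le_mul_of_nonneg_left h1 hlam0.le
      calc 1 / M ^ 2 * (v - u) ≤ 1 / M ^ 2 * (2 * (lam * (2 * (b * M) / (T * |h|)))) :=
            mul_le_mul_of_nonneg_left (hlen.trans (by linarith)) (by positivity)
        _ = 4 * b * lam / (M * T * |h|) := by field_simp; ring
        _ = 4 * b / lam := by
            rw [← hlam2]
            field_simp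
    have hsplit : ∫ r in α..β, (W r : ℂ) * Complex.exp ((φ r : ℂ) * Complex.I) =
        ((∫ r in α..u, (W r : ℂ) * Complex.exp ((φ r : ℂ) * Complex.I)) +
          ∫ r in u..v, (W r : ℂ) * Complex.exp ((φ r : ℂ) * Complex.I)) +
          ∫ r in v..β, (W r : ℂ) * Complex.exp ((φ r : ℂ) * Complex.I) := by
      rw [intervalIntegral.integral_add_adjacent_intervals (hint α u le_rfl hu1 huβ)
        (hint u v hu1 huv hvβ), intervalIntegral.integral_add_adjacent_intervals
        (hint α v le_rfl hvα hvβ) (hint v β hvα hvβ le_rfl)]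
    rw [hsplit]
    calc _ ≤ (4 / lam + 4 * b / lam) + 4 / lam :=
          (norm_add_le _ _).trans (add_le_add ((norm_add_le _ _).trans (add_le_add hleft hmid))
            hright)
      _ = (8 + 4 * b) / lam := by ring
      _ ≤ (8 + 8 * b) / lam := div_le_div_of_nonneg_right (by linarith) hlam0.le

end Pool.Agent.Y484.MC
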